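import Pool.Agent.helper7.UL.Spec

/-! # Project ul: row OEV -/

set_option autoImplicit false

namespace Pool.Agent.UL

open Finset

theorem OEV_mem_Del {o h δ : ℕ} : δ ∈ Del o h ↔ δ = 2 * (h + 1) * o ∨ ∃ k < h + 1, h + k * o = δ := by
  unfold Del
  rw [Finset.mem_insert, Finset.mem_image]
  simp only [Finset.mem_range]

theorem OEV_ge {o h δ : ℕ} (ho : 0 < o) (hδ : δ ∈ Del o h) : h ≤ δ := by
  rw [OEV_mem_Del] at hδ
  rcases hδ with rfl | ⟨k, _, rfl⟩
  · have : h * 1 ≤ h * o := Nat.mul_le_mul_left h ho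
    have e : 2 * (h + 1) * o = 2 * (h * o) + 2 * o := by ring
    omega
  · exact Nat.le_add_right _ _

theorem OEV_h {o h : ℕ} : h ∈ Del o h := by
  rw [OEV_mem_Del]
  exact Or.inr ⟨0, Nat.succ_pos _, by rw [Nat.zero_mul, Nat.add_zero]⟩

theorem OEV_even {o h : ℕ} {T : Set ℕ} (ho : o % 2 = 1) (n : ℕ) :
    2 * n ∈ Vset o h T ↔ n ∈ Del o h := by
  constructor
  · rintro (⟨δ, hδ, e⟩ | ⟨m, _, e⟩)
    · have : n = δ := by omega
      rw [this]
      exact hδ
    · omega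
  · intro hn
    exact Or.inl ⟨n, hn, rfl⟩

theorem OEV_odd {o h : ℕ} {T : Set ℕ} (ho : o % 2 = 1) (m : ℕ) :
    o + 2 * m ∈ Vset o h T ↔ m ∈ T := by
  constructor
  · rintro (⟨δ, hδ, e⟩ | ⟨m', hm', e⟩)
    · omega
    · have : m = m' := by omega
      rw [this]
      exact hm'
  · intro hn
    exact Or.inr ⟨m, hn, rfl⟩

theorem OEV_card {o h : ℕ} (ho : 0 < o) : (Del o h).card = h + 2 := by
  unfold Del
  rw [Finset.card_insert_of_notMem, Finset.card_image_of_injective, Finset.card_range]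
  · intro a b hab
    have h1 : h + a * o = h + b * o := hab
    have : a * o = b * o := by omega
    exact Nat.eq_of_mul_eq_mul_right ho this
  · rw [Finset.mem_image]
    rintro ⟨k, hk, e⟩
    rw [Finset.mem_range] at hk
    have h1 : k * o ≤ h * o := Nat.mul_le_mul_right o (by omega)
    have h2 : h * 1 ≤ h * o := Nat.mul_le_mul_left h ho
    have e2 : 2 * (h + 1) * o = 2 * (h * o) + 2 * o := by ring
    omega

theorem OEV_unique {α β : Type} {R : β → Prop} {Q : α → Prop} (f : α → β)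
    (h : ∀ p, R p ↔ ∃ δ, Q δ ∧ p = f δ) (hf : ∀ a b, Q a → Q b → f a = f b → a = b) :
    (∃! δ, Q δ) ↔ ∃! p, R p := by
  constructor
  · rintro ⟨δ, h1, h2⟩
    refine ⟨f δ, (h _).2 ⟨δ, h1, rfl⟩, fun p hp => ?_⟩
    obtain ⟨δ', h3, rfl⟩ := (h p).1 hp
    rw [h2 δ' h3]
  · rintro ⟨p, h1, h2⟩
    obtain ⟨δ, h3, h4⟩ := (h p).1 h1
    refine ⟨δ, h3, fun δ' h5 => ?_⟩
    refine hf δ' δ h5 h3 ?_
    rw [← h4]
    exact h2 _ ((h _).2 ⟨δ', h5, rfl⟩)

/-- **Row OEV**. -/
theorem OEV : OEV_stmt := by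
  intro o h T ho hoh h0 hT
  have hop : 0 < o := by omega
  refine ⟨?_, ?_, ?_, OEV_even ho, ?_⟩
  · intro n hn
    constructor
    · rintro (⟨δ, hδ, rfl⟩ | ⟨m, hm, rfl⟩)
      · have := OEV_ge hop hδ
        right
        omega
      · left
        by_cases hm0 : m = 0
        · omega
        · obtain ⟨δ, ⟨h1, h2, _⟩, _⟩ := (hT m (by omega)).1 hm
          have := OEV_ge hop h1
          omega
    · rintro (rfl | rfl)
      · exact (OEV_odd ho 0).2 h0
      · exact (OEV_even ho h).2 OEV_h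
  · intro n hn hn2
    obtain ⟨m, rfl⟩ : ∃ m, n = o + 2 * m := ⟨(n - o) / 2, by omega⟩
    rw [OEV_odd ho, hT m (by omega)]
    refine OEV_unique (fun δ => if 2 * δ < o + 2 * (m - δ) then (2 * δ, o + 2 * (m - δ))
      else (o + 2 * (m - δ), 2 * δ)) ?_ ?_
    · rintro ⟨a, b⟩
      constructor
      · rintro ⟨h1, h2, h3, h4⟩
        dsimp only at h1 h2 h3 h4
        rcases h2 with ⟨δ, hδ, rfl⟩ | ⟨m1, hm1, rfl⟩
        · rcases h3 with ⟨δ', hδ', rfl⟩ | ⟨m2, hm2, rfl⟩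
          · omega
          · have e : m - δ = m2 := by omega
            refine ⟨δ, ⟨hδ, by omega, ?_⟩, ?_⟩
            · rw [e]
              exact hm2
            · rw [e, if_pos h1]
        · rcases h3 with ⟨δ', hδ', rfl⟩ | ⟨m2, hm2, rfl⟩
          · have e : m - δ' = m1 := by omega
            refine ⟨δ', ⟨hδ', by omega, ?_⟩, ?_⟩
            · rw [e]
              exact hm1
            · rw [e, if_neg (by omega)]
          · omega
      · rintro ⟨δ, ⟨h1, h2, h3⟩, h4⟩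
        split_ifs at h4 with h5
        · rw [Prod.mk.injEq] at h4
          obtain ⟨rfl, rfl⟩ := h4
          exact ⟨h5, (OEV_even ho δ).2 h1, (OEV_odd ho _).2 h3, by dsimp only; omega⟩
        · rw [Prod.mk.injEq] at h4
          obtain ⟨rfl, rfl⟩ := h4
          exact ⟨by dsimp only; omega, (OEV_odd ho _).2 h3, (OEV_even ho δ).2 h1, by dsimp only; omega⟩
    · intro a b ha hb hab
      split_ifs at hab <;> rw [Prod.mk.injEq] at hab <;> omega
  · rintro n ⟨a, b⟩
    constructor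
    · rintro ⟨h1, h2, h3, h4⟩
      dsimp only at h1 h2 h3 h4
      rcases h2 with ⟨δ, hδ, rfl⟩ | ⟨m1, hm1, rfl⟩
      · rcases h3 with ⟨δ', hδ', rfl⟩ | ⟨m2, hm2, rfl⟩
        · exact Or.inr ⟨(δ, δ'), by dsimp only; omega, hδ, hδ', by dsimp only; omega, rfl⟩
        · omega
      · rcases h3 with ⟨δ', hδ', rfl⟩ | ⟨m2, hm2, rfl⟩
        · omega
        · exact Or.inl ⟨(m1, m2), by dsimp only; omega, hm1, hm2, by dsimp only; omega, rfl⟩
    · rintro (⟨q, h1, h2, h3, h4, h5⟩ | ⟨q, h1, h2, h3, h4, h5⟩)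
      · rw [Prod.mk.injEq] at h5
        obtain ⟨rfl, rfl⟩ := h5
        exact ⟨by dsimp only; omega, (OEV_odd ho _).2 h2, (OEV_odd ho _).2 h3, by dsimp only; omega⟩
      · rw [Prod.mk.injEq] at h5
        obtain ⟨rfl, rfl⟩ := h5
        exact ⟨by dsimp only; omega, (OEV_even ho _).2 h2, (OEV_even ho _).2 h3, by dsimp only; omega⟩
  · have e : {x | x ∈ Vset o h T ∧ x % 2 = 0} = (((Del o h).image fun δ => 2 * δ : Finset ℕ) : Set ℕ) := by
      ext x
      rw [Finset.mem_coe, Finset.mem_image, Set.mem_ofPred_eq]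
      constructor
      · rintro ⟨⟨δ, hδ, rfl⟩ | ⟨m, _, rfl⟩, h2⟩
        · exact ⟨δ, hδ, rfl⟩
        · omega
      · rintro ⟨δ, hδ, rfl⟩
        exact ⟨(OEV_even ho δ).2 hδ, by omega⟩
    rw [e, Set.ncard_coe_finset, Finset.card_image_of_injective _ (fun a b hab => by
      have : 2 * a = 2 * b := hab
      omega), OEV_card hop]

end Pool.Agent.UL
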